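import Mathlib
import Pool.Agent.H389R3.SO4

/-!
# Equality in the measure doubling inequality of `SO(3)`: the flipped caps

`C u θ` is the set of rotations moving the unit vector `u` by an angle less than `θ`, and
`flip u θ = {g | ∠(-u, g u) < θ}`; if `s` is a rotation with `s u = -u`, then
`flip u θ = s * C u θ`.

Every flipped cap `A = flip u θ` with `0 < θ < π / 2` satisfies `A * A = C u (2 θ)`, hence
`μ(A * A) = 4 μ(A) (1 - μ(A))`, although `A` differs from every cap `C v φ` by a set of positive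
measure. So the answer to Q2 is negative.
-/

set_option autoImplicit false

open Matrix MeasureTheory
open scoped Pointwise

namespace Pool.Agent.Results.MP_60c8e6_al.FlippedCaps

open Pool.Agent.H389R3.SO

theorem result : ∀ [MeasurableSpace SO3] [BorelSpace SO3],
    -- there is a normalised Haar measure, and for each such measure `μ`:
    (∃ μ : Measure SO3, μ.IsHaarMeasure ∧ IsProbabilityMeasure μ) ∧
    ∀ μ : Measure SO3, μ.IsHaarMeasure → IsProbabilityMeasure μ →
      -- (1) every flipped cap with `0 < θ < π / 2` attains equality, and is not a cap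
      (∀ u : Fin 3 → ℝ, u ⬝ᵥ u = 1 → ∀ θ : ℝ, 0 < θ → θ < Real.pi / 2 →
        IsOpen (flip u θ) ∧ (flip u θ).Nonempty ∧ μ.real (flip u θ) = (1 - Real.cos θ) / 2 ∧
        μ.real (flip u θ) < 1 / 2 ∧
        μ.real (flip u θ * flip u θ) = 4 * μ.real (flip u θ) * (1 - μ.real (flip u θ)) ∧
        ∀ (v : Fin 3 → ℝ) (φ : ℝ), v ⬝ᵥ v = 1 → μ (symmDiff (flip u θ) (C v φ)) ≠ 0) ∧
      -- (2) the statement of Q2 is false
      ¬ (∀ A : Set SO3, A.Nonempty → IsOpen A → μ.real A < 1 / 2 →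
        (μ.real (A * A) = 4 * μ.real A * (1 - μ.real A) ↔
          ∃ (v : Fin 3 → ℝ) (φ : ℝ), v ⬝ᵥ v = 1 ∧ 0 < φ ∧ φ ≤ Real.pi ∧
            μ (symmDiff A (C v φ)) = 0)) := by
  intro _ _
  refine ⟨exists_haar, fun μ hμ hμ1 => ⟨fun u hu θ h0 h1 => flip_main μ hμ hμ1 hu h0 h1, ?_⟩⟩
  intro h
  have hu : (![1, 0, 0] : Fin 3 → ℝ) ⬝ᵥ ![1, 0, 0] = 1 := by
    simp [dotProduct, Fin.sum_univ_three]
  have hpi := Real.pi_pos
  obtain ⟨h1, h2, _, h4, h5, h6⟩ := flip_main μ hμ hμ1 hu (θ := Real.pi / 4) (by linarith)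
    (by linarith)
  obtain ⟨v, φ, hv, _, _, h7⟩ := (h _ h2 h1 h4).1 h5
  exact h6 v φ hv h7

end Pool.Agent.Results.MP_60c8e6_al.FlippedCaps
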